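import Pool.Agent.Helper52.SG.Goals

/-!
SG-CLM (MP_0a002a_al): fixed points modulo a normal subgroup with residually finite quotient.
-/

set_option autoImplicit false

namespace Pool.Agent.Helper27.SG.CLM

open Subgroup Pool.H83Shunkov Pool.Agent.Helper29.SH Pool.Agent.Helper52.SG

section

variable {G : Type} [Group G]

/-- The setting passes to subgroups. -/
theorem st_sub {H : Subgroup G} {b : H} {p : ℕ} (h : St (b : G) p) : St b p where
  sh := h_SSUB G H H.subtype H.subtype_injective h.sh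
  hp := h.hp
  ord := by rw [← h.ord, Subgroup.orderOf_coe]
  tor := by
    refine Set.Finite.of_finite_image (f := H.subtype) (h.tor.subset ?_)
      H.subtype_injective.injOn
    rintro _ ⟨t, ⟨ht1, ht2⟩, rfl⟩
    refine ⟨?_, MonoidHom.isOfFinOrder H.subtype ht2⟩
    rw [mem_centralizer_singleton_iff] at ht1 ⊢
    have := congrArg H.subtype ht1
    simpa using this
  nlf := by
    rintro ⟨K, h1, h2, h3⟩
    refine h.nlf ⟨K.map H.subtype, ⟨b, h1, rfl⟩, ?_, h3.map _⟩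
    exact h2.image H.subtype_injective.injOn

theorem syl_cj {a : G} {p : ℕ} {M S : Subgroup G} (h : Syl a p M S) (x : G) :
    Syl a p (cj M x) (cj S x) where
  le := cj_mono h.le x
  pg := cj_isPGroup h.pg x
  hc := h.hc.cj x
  max := by
    intro S' h1 h2 h3
    have h4 : cj S' x⁻¹ ≤ M := by
      have := cj_mono h1 x⁻¹
      rwa [cj_inv_cancel] at this
    have h5 : S ≤ cj S' x⁻¹ := by
      have := cj_mono h3 x⁻¹
      rwa [cj_inv_cancel] at this
    have h6 := cj_mono (h.max _ h4 (cj_isPGroup h2 _) h5) x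
    rwa [cj_mul, inv_mul_cancel, cj_one] at h6

/-- elements of `⟨b⟩ R` -/
theorem mem_bR {b g : G} {R : Subgroup G} (hR : R.Normal) (hg : g ∈ zpowers b ⊔ R) :
    ∃ c ∈ zpowers b, ∃ r ∈ R, g = c * r := by
  have h1 : g ∈ ((zpowers b ⊔ R : Subgroup G) : Set G) := hg
  rw [mul_normal, Set.mem_mul] at h1
  obtain ⟨c, hc, r, hr, h⟩ := h1
  exact ⟨c, hc, r, hr, h.symm⟩

theorem main (hTORN : S_TORN) (hPFI2 : S_PFI2) (hSYLE : S_SYLE) (hSYLC : S_SYLC) (b : G) (p : ℕ)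
    (hb : St b p) (R : Subgroup G) (hR : R.Normal) (hRF : RFm R) :
    ∃ M : Subgroup G, M.Normal ∧ M.FiniteIndex ∧ R ≤ M ∧
      ∀ K : Subgroup G, (K : Set G).Finite → b ∈ K → ∀ x ∈ K, x ∈ M →
        b⁻¹ * (x⁻¹ * b * x) ∈ R → x ∈ R := by
  classical
  have hbz : b ∈ zpowers b := mem_zpowers b
  have hzp : IsPGroup p (zpowers b) := by
    have := Fact.mk hb.hp
    rw [IsPGroup.iff_orderOf]
    rintro ⟨z, hz⟩
    rw [Subgroup.orderOf_mk]
    have h1 : orderOf z ∣ p := by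
      rw [← hb.ord]
      exact orderOf_dvd_of_mem_zpowers hz
    rcases (Nat.dvd_prime hb.hp).mp h1 with h2 | h2
    · exact ⟨0, by rw [h2, pow_zero]⟩
    · exact ⟨1, by rw [h2, pow_one]⟩
  have hasB : ∀ K : Subgroup G, b ∈ K → HasC b K := fun K hK => ⟨1, by simpa using hK⟩
  set R' : Subgroup G := zpowers b ⊔ R with hR'
  have hRR' : R ≤ R' := le_sup_right
  have hbR' : b ∈ R' := (le_sup_left : zpowers b ≤ R') hbz
  obtain ⟨P, hP, hzP⟩ := hSYLE G b p R' (zpowers b) le_sup_left hzp (hasB _ hbz)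
  have hbP : b ∈ P := hzP hbz
  have hPfin : (P : Set G).Finite := hPFI2 G b p hb P hP.pg hP.hc
  -- the finite set of bad elements
  set Z : Set G := {t | IsOfFinOrder t ∧ t ∉ R ∧
    ∃ S : Subgroup G, S ≤ P ∧ HasC b S ∧ t ∈ normalizer (S : Set G)} with hZ
  have hsub : {S : Subgroup G | S ≤ P ∧ HasC b S}.Finite := by
    refine Set.Finite.of_finite_image (f := fun S : Subgroup G => (S : Set G))
      (hPfin.finite_subsets.subset ?_) ?_
    · rintro _ ⟨S, hS, rfl⟩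
      exact hS.1
    · intro S _ S' _ h
      exact SetLike.coe_injective h
  have hZfin : Z.Finite := by
    have h1 : (⋃ S ∈ {S : Subgroup G | S ≤ P ∧ HasC b S},
        Tor (normalizer (S : Set G))).Finite := by
      refine hsub.biUnion ?_
      rintro S ⟨h1, h2⟩
      obtain ⟨T, hT1, hT2⟩ := hTORN G b p hb S (hPfin.subset h1) h2
      rw [← hT2]
      exact hT1
    refine h1.subset ?_
    rintro t ⟨h2, -, S, h3, h4, h5⟩
    rw [Set.mem_iUnion₂]
    exact ⟨S, ⟨h3, h4⟩, h5, h2⟩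
  have hch : ∀ t : Z, ∃ M : Subgroup G, M.Normal ∧ M.FiniteIndex ∧ R ≤ M ∧ (t : G) ∉ M :=
    fun t => hRF t t.2.2.1
  choose Mt hMt1 hMt2 hMt3 hMt4 using hch
  have : Finite Z := hZfin.to_subtype
  refine ⟨⨅ t, Mt t, normal_iInf_normal hMt1, finiteIndex_iInf hMt2, le_iInf hMt3, ?_⟩
  intro K hK hbK x hxK hxM hxb
  set M : Subgroup G := ⨅ t, Mt t with hM
  have hRM : R ≤ M := le_iInf hMt3
  have hMn : M.Normal := normal_iInf_normal hMt1
  -- `x` normalises `K ⊓ R'`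
  set K₁ : Subgroup G := K ⊓ R' with hK₁
  have hK₁fin : (K₁ : Set G).Finite := hK.subset inf_le_left
  have hxR' : ∀ g ∈ R', x⁻¹ * g * x ∈ R' := by
    have h1 : x⁻¹ * b * x ∈ R' := by
      have h2 := R'.mul_mem hbR' (hRR' hxb)
      have e : b * (b⁻¹ * (x⁻¹ * b * x)) = x⁻¹ * b * x := by group
      rwa [e] at h2
    have h3 : zpowers b ⊔ R ≤ R'.comap (MulAut.conj x⁻¹).toMonoidHom := by
      rw [sup_le_iff]
      constructor
      · rw [zpowers_le, mem_comap]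
        have e : (MulAut.conj x⁻¹).toMonoidHom b = x⁻¹ * b * x := by
          show x⁻¹ * b * x⁻¹⁻¹ = _
          rw [inv_inv]
        rw [e]
        exact h1
      · intro r hr
        rw [mem_comap]
        have e : (MulAut.conj x⁻¹).toMonoidHom r = x⁻¹ * r * x := by
          show x⁻¹ * r * x⁻¹⁻¹ = _
          rw [inv_inv]
        rw [e]
        have := hR.conj_mem r hr x⁻¹
        rw [inv_inv] at this
        exact hRR' this
    intro g hg
    have h4 := h3 hg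
    rw [mem_comap] at h4
    have e : (MulAut.conj x⁻¹).toMonoidHom g = x⁻¹ * g * x := by
      show x⁻¹ * g * x⁻¹⁻¹ = _
      rw [inv_inv]
    rwa [e] at h4
  have hxK₁ : cj K₁ x = K₁ := by
    have : Finite K₁ := hK₁fin.to_subtype
    refine Subgroup.eq_of_le_of_card_ge ?_ (by rw [card_cj])
    intro g hg
    rw [mem_cj] at hg
    have h1 := hxR' _ hg.2
    have h2 : x⁻¹ * (x * g * x⁻¹) * x ∈ K := K.mul_mem (K.mul_mem (K.inv_mem hxK) hg.1) hxK
    have e : x⁻¹ * (x * g * x⁻¹) * x = g := by group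
    rw [e] at h1 h2
    exact ⟨h2, h1⟩
  -- a Sylow subgroup of `K₁`
  obtain ⟨S, hS, hzS⟩ := hSYLE G b p K₁ (zpowers b)
    (by rw [zpowers_le]; exact ⟨hbK, hbR'⟩) hzp (hasB _ hbz)
  have hbS : b ∈ S := hzS hbz
  have hSx : Syl b p K₁ (cj S x) := by
    have := syl_cj hS x
    rwa [hxK₁] at this
  obtain ⟨k, hk, hkS⟩ := hSYLC G b p hb K₁ S (cj S x) hS hSx
  obtain ⟨c, hc, k₀, hk₀, e⟩ := mem_bR hR hk.2
  have hcS : c ∈ S := hzS hc
  have hcK : c ∈ K := (hS.le hcS).1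
  have hk₀K : k₀ ∈ K := by
    have h1 : k₀ = c⁻¹ * k := by rw [e]; group
    rw [h1]
    exact K.mul_mem (K.inv_mem hcK) hk.1
  have hSk₀ : cj S x = cj S k₀ := by
    rw [hkS, e, ← cj_mul, cj_eq_of_mem hcS]
  set y : G := x * k₀⁻¹ with hy
  have hyS : cj S y = S := by
    rw [hy, ← cj_mul, hSk₀, cj_inv_cancel]
  have hyK : y ∈ K := K.mul_mem hxK (K.inv_mem hk₀K)
  have hyM : y ∈ M := M.mul_mem hxM (M.inv_mem (hRM hk₀))
  -- move it into `P`
  obtain ⟨S', hS', hSS'⟩ := hSYLE G b p R' S (hS.le.trans inf_le_right) hS.pg (hasB _ hbS)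
  obtain ⟨r, hr, hrS'⟩ := hSYLC G b p hb R' P S' hP hS'
  obtain ⟨c', hc', r₀, hr₀, e'⟩ := mem_bR hR hr
  have hS'r₀ : S' = cj P r₀ := by
    rw [hrS', e', ← cj_mul, cj_eq_of_mem (hzP hc')]
  have hS2 : cj S r₀⁻¹ ≤ P := by
    have h1 := cj_mono hSS' r₀⁻¹
    rwa [hS'r₀, cj_inv_cancel] at h1
  have ht : r₀ * y * r₀⁻¹ ∈ normalizer ((cj S r₀⁻¹ : Subgroup G) : Set G) := by
    rw [mem_normalizer_iff_cj, cj_mul]
    have e1 : r₀⁻¹ * (r₀ * y * r₀⁻¹) = y * r₀⁻¹ := by group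
    rw [e1, ← cj_mul, hyS]
  have hyfin : IsOfFinOrder y := by
    have : Finite K := hK.to_subtype
    have h1 := isOfFinOrder_of_finite (⟨y, hyK⟩ : K)
    exact MonoidHom.isOfFinOrder K.subtype h1
  have htfin : IsOfFinOrder (r₀ * y * r₀⁻¹) :=
    MonoidHom.isOfFinOrder (MulAut.conj r₀).toMonoidHom hyfin
  have htM : r₀ * y * r₀⁻¹ ∈ M := hMn.conj_mem y hyM r₀
  have htR : r₀ * y * r₀⁻¹ ∈ R := by
    by_contra hcon
    have hz : r₀ * y * r₀⁻¹ ∈ Z := ⟨htfin, hcon, cj S r₀⁻¹, hS2, (hasB _ hbS).cj _, ht⟩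
    have h1 := hMt4 ⟨_, hz⟩
    exact h1 ((iInf_le Mt ⟨_, hz⟩) htM)
  have hyR : y ∈ R := by
    have h1 := hR.conj_mem _ htR r₀⁻¹
    have e1 : r₀⁻¹ * (r₀ * y * r₀⁻¹) * r₀⁻¹⁻¹ = y := by group
    rwa [e1] at h1
  have e2 : x = y * k₀ := by rw [hy]; group
  rw [e2]
  exact R.mul_mem hyR hk₀

end

/-- **CLM** -/
theorem t (hTORN : S_TORN) (hPFI2 : S_PFI2) (hSYLE : S_SYLE) (hSYLC : S_SYLC) : S_CLM := by
  intro G _ H b p hb R hR hRF
  exact main hTORN hPFI2 hSYLE hSYLC b p (st_sub hb) R hR hRF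

end Pool.Agent.Helper27.SG.CLM
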